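import Pool.Agent.N41.RM.Mult
import Pool.Agent.U745.RZ.Zer

/-!
# Real zeros of quadratic Dirichlet L-functions: the rotated law at real points
-/

set_option autoImplicit false

namespace Pool.Agent.U544.RC

open Filter Topology Set
open Pool.Agent.W187.UR (Lam cmean)
open Pool.Agent.N41.RM
open Pool.Agent.U745.RZ (chi_real res order_one cont_one order_chi)

variable {N : ℕ} [NeZero N] {χ : DirichletCharacter ℂ N}

/-- the kernel -/
noncomputable def ker (γ u : ℝ) : ℂ :=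
  Complex.exp ((γ * u : ℝ) * Complex.I) / (Real.Gamma (1 + u) : ℂ)

/-- the term of the sum at the real point `σ` -/
noncomputable def vterm (χ : DirichletCharacter ℂ N) (γ σ T : ℝ) (x : Nat.Primes × ℕ) : ℂ :=
  (((χ (x.1 : ℕ)).re ^ (x.2 + 1) / ((x.2 + 1) * ((x.1 : ℕ) : ℝ) ^ (σ * (x.2 + 1))) : ℝ) : ℂ) *
    ker γ ((x.2 + 1) * Real.log (x.1 : ℕ) / T)

/-- the sum at the real point `σ` -/
noncomputable def V (χ : DirichletCharacter ℂ N) (γ σ T : ℝ) : ℂ := ∑' x, vterm χ γ σ T x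

/-- the number of the real zeros in `A`, with multiplicity -/
noncomputable def zc (χ : DirichletCharacter ℂ N) (A : Set ℝ) : ℕ :=
  ∑ᶠ x ∈ A, analyticOrderNatAt χ.LFunction (x : ℂ)

/-- the prime as a real number -/
noncomputable def qP (p : Nat.Primes) : ℝ := ((p : ℕ) : ℝ)

/-- the parameter -/
noncomputable def aP (χ : DirichletCharacter ℂ N) (p : Nat.Primes) (_ : Fin 1) : ℂ := χ (p : ℕ)

omit [NeZero N] in
theorem eg (h2 : χ ^ 2 = 1) : EG 0 qP (aP χ) where
  two_le v := by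
    unfold qP
    exact_mod_cast v.2.two_le
  sum σ hσ := by
    unfold qP
    exact Nat.Primes.summable_rpow.2 (by linarith)
  ha v j := by
    rw [Real.rpow_zero]
    exact χ.norm_le_one _
  real v k := by
    rw [Fin.sum_univ_one]
    unfold aP
    rw [(chi_real h2 (v : ℕ)).1, ← Complex.ofReal_pow, Complex.ofReal_im]

theorem prod_eq (χ : DirichletCharacter ℂ N) {s : ℂ} (hs : 1 + (0 : ℝ) < s.re) :
    χ.LFunction s = ∏' v : Nat.Primes, ∏ j, (1 - aP χ v j * (qP v : ℂ) ^ (-s))⁻¹ := by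
  have hs' : 1 < s.re := by linarith
  rw [DirichletCharacter.LFunction_eq_LSeries χ hs', ← DirichletCharacter.LSeries_eulerProduct_tprod χ hs']
  refine tprod_congr fun v => ?_
  rw [Fin.prod_univ_one]
  unfold aP qP
  push_cast
  rfl

omit [NeZero N] in
theorem oterm_eq_vterm (h2 : χ ^ 2 = 1) (γ σ T : ℝ) (x : Nat.Primes × ℕ) :
    oterm qP (aP χ) σ 0 γ T x = vterm χ γ σ T x := by
  unfold oterm vterm ker
  rw [Fin.sum_univ_one]
  have h : (aP χ x.1 0 ^ (x.2 + 1)).re = (χ (x.1 : ℕ)).re ^ (x.2 + 1) := by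
    unfold aP
    rw [(chi_real h2 (x.1 : ℕ)).1, ← Complex.ofReal_pow, Complex.ofReal_re, Complex.ofReal_re]
  rw [h, zero_mul, Real.cos_zero, mul_one]
  rfl

omit [NeZero N] in
theorem vterm_summable (h2 : χ ^ 2 = 1) (γ σ : ℝ) {T : ℝ} (hT : 0 < T) :
    Summable fun x => ‖vterm χ γ σ T x‖ := by
  refine ((eg h2).oterm_summable σ 0 γ hT).congr fun x => ?_
  rw [oterm_eq_vterm h2]

theorem order_nat (h1 : χ ≠ 1) (s : ℂ) :
    (meromorphicOrderAt χ.LFunction s).untop₀ = (analyticOrderNatAt χ.LFunction s : ℤ) := by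
  rw [((DirichletCharacter.differentiable_LFunction h1).analyticAt s).meromorphicOrderAt_eq]
  unfold analyticOrderNatAt
  rcases h : analyticOrderAt χ.LFunction s with _ | n
  · rfl
  · rfl

/-- the data for a nontrivial real character -/
theorem dsχ (h1 : χ ≠ 1) (h2 : χ ^ 2 = 1) : DS (1 + 0) (fq qP) (cq (aP χ)) χ.LFunction :=
  (eg h2).ds (fun s => ((DirichletCharacter.differentiable_LFunction h1).analyticAt s).meromorphicAt)
    (fun _ hs => prod_eq χ hs)

theorem fin_zc (h1 : χ ≠ 1) (h2 : χ ^ 2 = 1) (σ : ℝ) : (Ioi σ ∩ Function.support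
    fun x : ℝ => analyticOrderNatAt χ.LFunction (x : ℂ)).Finite := by
  refine ((dsχ h1 h2).fin σ 0).subset ?_
  rintro x ⟨hx, hx2⟩
  refine ⟨hx, ?_⟩
  rw [Function.mem_support] at hx2 ⊢
  rw [Complex.ofReal_zero, zero_mul, add_zero, order_nat h1]
  exact_mod_cast hx2

theorem rayN_eq (h1 : χ ≠ 1) (h2 : χ ^ 2 = 1) (σ : ℝ) :
    rayN χ.LFunction σ 0 = (zc χ (Ioi σ) : ℤ) := by
  unfold rayN zc
  rw [finsum_mem_eq_sum _ (fin_zc h1 h2 σ)]
  have hf : (Ioi σ ∩ Function.support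
      fun x : ℝ => (meromorphicOrderAt χ.LFunction (x + (0 : ℝ) * Complex.I)).untop₀).Finite :=
    (dsχ h1 h2).fin σ 0
  rw [finsum_mem_eq_sum _ hf, Nat.cast_sum]
  have e : ∀ x : ℝ, (meromorphicOrderAt χ.LFunction (x + (0 : ℝ) * Complex.I)).untop₀ =
      (analyticOrderNatAt χ.LFunction (x : ℂ) : ℤ) := by
    intro x
    rw [Complex.ofReal_zero, zero_mul, add_zero, order_nat h1]
  refine Finset.sum_congr ?_ fun x _ => e x
  ext x
  rw [Set.Finite.mem_toFinset, Set.Finite.mem_toFinset, mem_inter_iff, mem_inter_iff,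
    Function.mem_support, Function.mem_support, e]
  norm_cast

/-- the multiplicity of the real point `σ` -/
noncomputable def mu (χ : DirichletCharacter ℂ N) (σ : ℝ) : ℕ :=
  sInf {m : ℕ | iteratedDeriv m χ.LFunction (σ : ℂ) ≠ 0}

/-- the leading coefficient -/
noncomputable def lead (χ : DirichletCharacter ℂ N) (σ : ℝ) : ℝ :=
  ‖iteratedDeriv (mu χ σ) χ.LFunction (σ : ℂ)‖ / (mu χ σ).factorial

/-- **The law at every real point.** -/
theorem law (h1 : χ ≠ 1) (h2 : χ ^ 2 = 1) {γ : ℝ} (hγ : Real.pi / 2 < γ) (σ : ℝ) :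
    iteratedDeriv (mu χ σ) χ.LFunction (σ : ℂ) ≠ 0 ∧
    (fun T : ℝ => V χ γ σ T - (-(mu χ σ) * (Real.log T - Lam γ) + Real.log (lead χ σ) -
      Real.pi * zc χ (Ioi σ) * Complex.I)) =O[atTop] (fun T : ℝ => 1 / T) := by
  have hd := DirichletCharacter.differentiable_LFunction h1
  obtain ⟨n, l, k1, k2, -, k4⟩ := (eg h2).off (F := χ.LFunction)
    (fun s => (hd.analyticAt s).meromorphicAt) (fun _ hs => prod_eq χ hs) σ 0 hγ
  have e0 : ((σ : ℂ) + ((0 : ℝ) : ℂ) * Complex.I) = σ := by simp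
  rw [e0] at k1 k2
  obtain ⟨k5, k6, k7⟩ := mul0_spec (hd.analyticAt (σ : ℂ)) k1 k2
  refine ⟨k7, k4.congr_left fun T => ?_⟩
  have h8 : lead χ σ = ‖l‖ := by
    rw [← k6, norm_div, Complex.norm_natCast]
    rfl
  have h10 : (n : ℂ) = (mu χ σ : ℂ) := by
    rw [k5]
    push_cast
    rfl
  have h11 : (∑' x, oterm qP (aP χ) σ 0 γ T x) = V χ γ σ T :=
    tsum_congr fun x => oterm_eq_vterm h2 γ σ T x
  rw [h8, h10, h11, rayN_eq h1 h2]
  push_cast
  ring

/-- the law in the form of the abstract lemmas -/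
theorem law' (h1 : χ ≠ 1) (h2 : χ ^ 2 = 1) {γ : ℝ} (hγ : Real.pi / 2 < γ) (σ : ℝ) :
    (fun T : ℝ => V χ γ σ T - (((-(mu χ σ : ℤ) : ℤ) : ℂ) * (Real.log T - Lam γ) +
      (Real.log (lead χ σ) - Real.pi * zc χ (Ioi σ) * Complex.I))) =O[atTop]
        (fun T : ℝ => 1 / T) := by
  refine (law h1 h2 hγ σ).2.congr_left fun T => ?_
  push_cast
  ring

/-- the number of the zeros to the right of `σ` is a limit -/
theorem count (h1 : χ ≠ 1) (h2 : χ ^ 2 = 1) {γ : ℝ} (hγ : Real.pi / 2 < γ) (σ : ℝ) :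
    Tendsto (fun T : ℝ => (V χ γ σ T).im + (Lam γ).im * ((V χ γ σ T).re / Real.log T)) atTop
      (𝓝 (-(Real.pi * zc χ (Ioi σ)))) := by
  have h := im_of_law (law' h1 h2 hγ σ)
  have e : ((Real.log (lead χ σ) : ℂ) - Real.pi * zc χ (Ioi σ) * Complex.I).im =
      -(Real.pi * zc χ (Ioi σ)) := by simp
  rwa [e] at h

/-- there are no zeros with `1 ≤ σ` -/
theorem zc_Ioi (h1 : χ ≠ 1) {σ : ℝ} : zc χ (Ioi σ) = zc χ (Ioo σ 1) := by
  unfold zc
  refine finsum_mem_inter_support_eq' _ _ _ fun x hx => ?_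
  rw [Function.mem_support] at hx
  constructor
  · intro h
    refine ⟨h, ?_⟩
    by_contra h7
    push Not at h7
    apply hx
    have hne : χ.LFunction (x : ℂ) ≠ 0 :=
      DirichletCharacter.LFunction_ne_zero_of_one_le_re χ (Or.inl h1) (by simpa using h7)
    have ha := (DirichletCharacter.differentiable_LFunction h1).analyticAt (x : ℂ)
    unfold analyticOrderNatAt
    rw [ha.analyticOrderAt_eq_zero.2 hne]
    rfl
  · exact fun h => h.1

theorem zc_zero_iff (h1 : χ ≠ 1) (h2 : χ ^ 2 = 1) (σ : ℝ) :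
    zc χ (Ioi σ) = 0 ↔ ∀ x : ℝ, σ < x → χ.LFunction (x : ℂ) ≠ 0 := by
  have e : zc χ (Ioi σ) = 0 ↔ rayN χ.LFunction σ 0 = 0 := by
    rw [rayN_eq h1 h2]
    norm_cast
  rw [e, (dsχ h1 h2).rayN_eq_zero_iff σ 0 (fun x _ => by rw [order_nat h1]; positivity)]
  refine forall_congr' fun x => imp_congr_right fun _ => ?_
  rw [Complex.ofReal_zero, zero_mul, add_zero, order_nat h1]
  have ha := (DirichletCharacter.differentiable_LFunction h1).analyticAt (x : ℂ)
  have h3 : analyticOrderAt χ.LFunction (x : ℂ) ≠ ⊤ := by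
    have h4 := (dsχ h1 h2).ne_top (x : ℂ)
    intro h5
    apply h4
    rw [ha.meromorphicOrderAt_eq, h5]
    rfl
  rw [← ha.analyticOrderAt_eq_zero, ← Nat.cast_analyticOrderNatAt h3]
  norm_cast

end Pool.Agent.U544.RC
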