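import Pool.Agent.U544.RC.Law

/-!
# The law at `1/2` with primes only
-/

set_option autoImplicit false

namespace Pool.Agent.U544.RC

open Filter Topology Set
open Pool.Agent.W187.UR (Lam cmean)
open Pool.Agent.N41.RM
open Pool.Agent.U745.RZ (chi_real res res_pos order_one cont_one order_chi xr inv_gamma_lip)

theorem ker_lip (γ : ℝ) : ∃ C : ℝ, 0 ≤ C ∧ ∀ u : ℝ, 0 ≤ u → ‖ker γ u - 1‖ ≤ C * u := by
  obtain ⟨C, hC0, hC⟩ := inv_gamma_lip
  refine ⟨C + |γ|, by positivity, fun u hu => ?_⟩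
  have h1 := hC u hu
  have h2 : (Complex.Gamma (1 + u))⁻¹ = ((Real.Gamma (1 + u) : ℝ) : ℂ)⁻¹ := by
    rw [← Complex.Gamma_ofReal]
    push_cast
    rfl
  rw [h2] at h1
  have h3 : ‖Complex.exp ((γ * u : ℝ) * Complex.I) - 1‖ ≤ |γ| * u := by
    have := Real.norm_exp_I_mul_ofReal_sub_one_le (x := γ * u)
    rw [mul_comm Complex.I] at this
    refine this.trans (le_of_eq ?_)
    rw [Real.norm_eq_abs, abs_mul, abs_of_nonneg hu]
  have e : ker γ u - 1 = Complex.exp ((γ * u : ℝ) * Complex.I) *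
      (((Real.Gamma (1 + u) : ℝ) : ℂ)⁻¹ - 1) + (Complex.exp ((γ * u : ℝ) * Complex.I) - 1) := by
    unfold ker
    rw [div_eq_mul_inv]
    ring
  rw [e]
  refine (norm_add_le _ _).trans ?_
  rw [norm_mul, Complex.norm_exp_ofReal_mul_I, one_mul]
  linarith

/-- a weighted sum with small coefficients converges at the rate `1 / T` -/
theorem err {ι : Type} {c lam : ι → ℝ} (hlam : ∀ i, 0 ≤ lam i) (h1 : Summable fun i => |c i|)
    (h2 : Summable fun i => |c i| * lam i) (γ : ℝ) :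
    ∃ C : ℝ, 0 ≤ C ∧ ∀ T : ℝ, 0 < T → (Summable fun i => (c i : ℂ) * ker γ (lam i / T)) ∧
      ‖∑' i, (c i : ℂ) * ker γ (lam i / T) - ((∑' i, c i : ℝ) : ℂ)‖ ≤ C / T := by
  obtain ⟨C, hC0, hC⟩ := ker_lip γ
  refine ⟨C * ∑' i, |c i| * lam i, mul_nonneg hC0 (tsum_nonneg fun i =>
    mul_nonneg (abs_nonneg _) (hlam i)), fun T hT => ?_⟩
  have hd : ∀ i, ‖(c i : ℂ) * (ker γ (lam i / T) - 1)‖ ≤ |c i| * lam i * (C / T) := by
    intro i
    rw [norm_mul, Complex.norm_real, Real.norm_eq_abs]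
    have h3 := hC (lam i / T) (div_nonneg (hlam i) hT.le)
    calc |c i| * ‖ker γ (lam i / T) - 1‖ ≤ |c i| * (C * (lam i / T)) :=
          mul_le_mul_of_nonneg_left h3 (abs_nonneg _)
      _ = _ := by ring
  have hs0 : Summable fun i => (c i : ℂ) := by
    refine Summable.of_norm (h1.congr fun i => ?_)
    rw [Complex.norm_real, Real.norm_eq_abs]
  have hs1 : Summable fun i => (c i : ℂ) * (ker γ (lam i / T) - 1) :=
    Summable.of_norm_bounded (h2.mul_right _) hd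
  have hs2 : Summable fun i => (c i : ℂ) * ker γ (lam i / T) := by
    refine (hs0.add hs1).congr fun i => ?_
    ring
  refine ⟨hs2, ?_⟩
  have e : ∑' i, (c i : ℂ) * ker γ (lam i / T) - ((∑' i, c i : ℝ) : ℂ) =
      ∑' i, (c i : ℂ) * (ker γ (lam i / T) - 1) := by
    rw [Complex.ofReal_tsum, ← hs2.tsum_sub hs0]
    refine tsum_congr fun i => ?_
    ring
  rw [e, show (C * ∑' i, |c i| * lam i) / T = (∑' i, |c i| * lam i) * (C / T) by ring, ← tsum_mul_right]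
  exact tsum_of_norm_bounded (h2.mul_right _).hasSum hd

variable {N : ℕ} {χ : DirichletCharacter ℂ N}

theorem xr_abs_le (h2 : χ ^ 2 = 1) (p : Nat.Primes) : |xr χ p| ≤ ((p : ℕ) : ℝ) ^ (-(1 / 2) : ℝ) := by
  have hp : (0 : ℝ) < ((p : ℕ) : ℝ) := by exact_mod_cast p.2.pos
  unfold xr
  rw [abs_div, abs_of_nonneg (Real.sqrt_nonneg _), Real.rpow_neg hp.le, ← Real.sqrt_eq_rpow]
  rw [div_eq_mul_inv]
  refine mul_le_of_le_one_left (by positivity) ?_
  rcases (chi_real h2 (p : ℕ)).2.1 with h | h | h <;> rw [h] <;> simp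

theorem xr_abs_lt (h2 : χ ^ 2 = 1) (p : Nat.Primes) : |xr χ p| < 1 := by
  refine (xr_abs_le h2 p).trans_lt ?_
  exact Real.rpow_lt_one_of_one_lt_of_neg (by exact_mod_cast p.2.one_lt) (by norm_num)

/-- the coefficients of the odd powers at least three -/
noncomputable def co (χ : DirichletCharacter ℂ N) (x : Nat.Primes × ℕ) : ℝ :=
  xr χ x.1 ^ (2 * x.2 + 3) / (2 * x.2 + 3)

/-- the logarithms -/
noncomputable def lo (x : Nat.Primes × ℕ) : ℝ := (2 * x.2 + 3) * Real.log ((x.1 : ℕ) : ℝ)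

theorem lo_nonneg (x : Nat.Primes × ℕ) : 0 ≤ lo x := by
  have : (1 : ℝ) ≤ ((x.1 : ℕ) : ℝ) := by exact_mod_cast x.1.2.one_lt.le
  have := Real.log_nonneg this
  unfold lo
  positivity

theorem co_bound (h2 : χ ^ 2 = 1) (x : Nat.Primes × ℕ) :
    |xr χ x.1 ^ (2 * x.2 + 3)| ≤ ((x.1 : ℕ) : ℝ) ^ (-(3 / 2) : ℝ) * (1 / 2) ^ x.2 := by
  have hp : (0 : ℝ) < ((x.1 : ℕ) : ℝ) := by exact_mod_cast x.1.2.pos
  have h3 := xr_abs_le h2 x.1
  rw [abs_pow]
  calc |xr χ x.1| ^ (2 * x.2 + 3) ≤ (((x.1 : ℕ) : ℝ) ^ (-(1 / 2) : ℝ)) ^ (2 * x.2 + 3) :=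
        pow_le_pow_left₀ (abs_nonneg _) h3 _
    _ = ((x.1 : ℕ) : ℝ) ^ (-(3 / 2) : ℝ) * (((x.1 : ℕ) : ℝ) ^ (-1 : ℝ)) ^ x.2 := by
        rw [← Real.rpow_natCast, ← Real.rpow_mul hp.le, ← Real.rpow_natCast _ x.2,
          ← Real.rpow_mul hp.le, ← Real.rpow_add hp]
        congr 1
        push_cast
        ring
    _ ≤ ((x.1 : ℕ) : ℝ) ^ (-(3 / 2) : ℝ) * (1 / 2) ^ x.2 := by
        gcongr
        rw [Real.rpow_neg_one, one_div]
        exact inv_anti₀ (by norm_num) (by exact_mod_cast x.1.2.two_le)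

theorem co_summable (h2 : χ ^ 2 = 1) : Summable fun x => |co χ x| := by
  have hg : Summable fun n : ℕ => (1 / 2 : ℝ) ^ n :=
    summable_geometric_of_lt_one (by norm_num) (by norm_num)
  have h3 : Summable fun p : Nat.Primes => ((p : ℕ) : ℝ) ^ (-(3 / 2) : ℝ) :=
    Nat.Primes.summable_rpow.2 (by norm_num)
  have h4 := h3.mul_of_nonneg hg (fun p => by
    show (0 : ℝ) ≤ ((p : ℕ) : ℝ) ^ (-(3 / 2) : ℝ)
    positivity) (fun n => by positivity)
  refine Summable.of_nonneg_of_le (fun x => abs_nonneg _) (fun x => ?_) h4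
  unfold co
  have h0 : (0 : ℝ) ≤ x.2 := x.2.cast_nonneg
  rw [abs_div, abs_of_pos (by positivity : (0 : ℝ) < 2 * (x.2 : ℝ) + 3)]
  refine (div_le_self (abs_nonneg _) (by linarith)).trans ?_
  exact co_bound h2 x

theorem co_summable_log (h2 : χ ^ 2 = 1) : Summable fun x => |co χ x| * lo x := by
  have hg : Summable fun n : ℕ => (1 / 2 : ℝ) ^ n :=
    summable_geometric_of_lt_one (by norm_num) (by norm_num)
  have h3 : Summable fun p : Nat.Primes => 4 * ((p : ℕ) : ℝ) ^ (-(5 / 4) : ℝ) :=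
    (Nat.Primes.summable_rpow.2 (by norm_num)).mul_left 4
  have h4 := h3.mul_of_nonneg hg (fun p => by
    show (0 : ℝ) ≤ 4 * ((p : ℕ) : ℝ) ^ (-(5 / 4) : ℝ)
    positivity) (fun n => by positivity)
  refine Summable.of_nonneg_of_le (fun x => mul_nonneg (abs_nonneg _) (lo_nonneg x)) (fun x => ?_) h4
  have hp : (0 : ℝ) < ((x.1 : ℕ) : ℝ) := by exact_mod_cast x.1.2.pos
  have h0 : (0 : ℝ) ≤ x.2 := x.2.cast_nonneg
  have h5 : |co χ x| * lo x = |xr χ x.1 ^ (2 * x.2 + 3)| * Real.log ((x.1 : ℕ) : ℝ) := by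
    unfold co lo
    rw [abs_div, abs_of_pos (by positivity : (0 : ℝ) < 2 * (x.2 : ℝ) + 3)]
    field_simp
  rw [h5]
  have h6 : Real.log ((x.1 : ℕ) : ℝ) ≤ ((x.1 : ℕ) : ℝ) ^ (1 / 4 : ℝ) / (1 / 4) :=
    Real.log_le_rpow_div hp.le (by norm_num)
  have h7 : ((x.1 : ℕ) : ℝ) ^ (-(3 / 2) : ℝ) * ((x.1 : ℕ) : ℝ) ^ (1 / 4 : ℝ) =
      ((x.1 : ℕ) : ℝ) ^ (-(5 / 4) : ℝ) := by
    rw [← Real.rpow_add hp]
    norm_num
  have h8 : 0 ≤ Real.log ((x.1 : ℕ) : ℝ) := Real.log_nonneg (by exact_mod_cast x.1.2.one_lt.le)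
  calc |xr χ x.1 ^ (2 * x.2 + 3)| * Real.log ((x.1 : ℕ) : ℝ)
      ≤ (((x.1 : ℕ) : ℝ) ^ (-(3 / 2) : ℝ) * (1 / 2) ^ x.2) *
        (((x.1 : ℕ) : ℝ) ^ (1 / 4 : ℝ) / (1 / 4)) :=
        mul_le_mul (co_bound h2 x) h6 h8 (by positivity)
    _ = 4 * (((x.1 : ℕ) : ℝ) ^ (-(3 / 2) : ℝ) * ((x.1 : ℕ) : ℝ) ^ (1 / 4 : ℝ)) * (1 / 2) ^ x.2 := by
        ring
    _ = _ := by rw [h7]

/-- `∑_p (artanh x_p - x_p)` -/
noncomputable def cst (χ : DirichletCharacter ℂ N) : ℝ :=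
  ∑' p : Nat.Primes, (1 / 2 * Real.log ((1 + xr χ p) / (1 - xr χ p)) - xr χ p)

theorem co_tsum (h2 : χ ^ 2 = 1) : ∑' x, co χ x = cst χ := by
  have hs : Summable (co χ) := (co_summable h2).of_abs
  rw [hs.tsum_prod]
  unfold cst
  refine tsum_congr fun p => ?_
  have hx := xr_abs_lt h2 p
  have h3 := Real.hasSum_log_sub_log_of_abs_lt_one hx
  have h4 := (hasSum_nat_add_iff' 1).2 h3
  rw [Finset.sum_range_one] at h4
  have h5 := h4.mul_left (1 / 2)
  obtain ⟨h6, h7⟩ := abs_lt.1 hx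
  rw [Real.log_div (by linarith) (by linarith)]
  have e1 : (1 / 2 : ℝ) * (Real.log (1 + xr χ p) - Real.log (1 - xr χ p) -
      2 * (1 / (2 * ((0 : ℕ) : ℝ) + 1)) * xr χ p ^ (2 * 0 + 1)) =
      1 / 2 * (Real.log (1 + xr χ p) - Real.log (1 - xr χ p)) - xr χ p := by
    push_cast
    ring
  rw [e1] at h5
  rw [← h5.tsum_eq]
  refine tsum_congr fun n => ?_
  unfold co
  push_cast
  rw [show 2 * (n + 1) + 1 = 2 * n + 3 by ring]
  have h0 : (0 : ℝ) ≤ n := n.cast_nonneg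
  have h8 : (2 * (n : ℝ) + 3) ≠ 0 := by positivity
  have h9 : (2 * ((n : ℝ) + 1) + 1) ≠ 0 := by positivity
  field_simp
  ring

/-- the sum over the primes only at the point `1/2` -/
noncomputable def S (χ : DirichletCharacter ℂ N) (γ T : ℝ) : ℂ :=
  ∑' p : Nat.Primes, ((xr χ p : ℝ) : ℂ) * ker γ (Real.log ((p : ℕ) : ℝ) / T)

theorem vterm_half (x : Nat.Primes × ℕ) (γ T : ℝ) :
    vterm χ γ (1 / 2) T x = ((xr χ x.1 ^ (x.2 + 1) / (x.2 + 1) : ℝ) : ℂ) *
      ker γ ((x.2 + 1) * Real.log ((x.1 : ℕ) : ℝ) / T) := by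
  have hp : (0 : ℝ) < ((x.1 : ℕ) : ℝ) := by exact_mod_cast x.1.2.pos
  unfold vterm xr
  congr 2
  have h : ((x.1 : ℕ) : ℝ) ^ ((1 / 2 : ℝ) * (x.2 + 1)) = √((x.1 : ℕ) : ℝ) ^ (x.2 + 1) := by
    rw [Real.sqrt_eq_rpow, ← Real.rpow_natCast, ← Real.rpow_mul hp.le]
    push_cast
    rfl
  rw [h, div_pow]
  field_simp

theorem vterm_one (h2 : χ ^ 2 = 1) (x : Nat.Primes × ℕ) (γ T : ℝ) :
    vterm (1 : DirichletCharacter ℂ N) γ 1 (T / 2) x =
      ((xr χ x.1 ^ (2 * x.2 + 2) / (x.2 + 1) : ℝ) : ℂ) *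
      ker γ ((2 * x.2 + 2) * Real.log ((x.1 : ℕ) : ℝ) / T) := by
  have hp : (0 : ℝ) < ((x.1 : ℕ) : ℝ) := by exact_mod_cast x.1.2.pos
  have h0 : (0 : ℝ) ≤ x.2 := x.2.cast_nonneg
  have hc : ((1 : DirichletCharacter ℂ N) (x.1 : ℕ)).re = (χ (x.1 : ℕ)).re ^ 2 := by
    obtain ⟨k1, -, k3⟩ := chi_real h2 (x.1 : ℕ)
    rw [← k3, k1, ← Complex.ofReal_pow, Complex.ofReal_re, Complex.ofReal_re]
  unfold vterm
  have e1 : ((1 : DirichletCharacter ℂ N) (x.1 : ℕ)).re ^ (x.2 + 1) / ((x.2 + 1) *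
      ((x.1 : ℕ) : ℝ) ^ ((1 : ℝ) * (x.2 + 1))) = xr χ x.1 ^ (2 * x.2 + 2) / (x.2 + 1) := by
    have h : ((x.1 : ℕ) : ℝ) ^ ((1 : ℝ) * (x.2 + 1)) = √((x.1 : ℕ) : ℝ) ^ (2 * x.2 + 2) := by
      rw [show 2 * x.2 + 2 = 2 * (x.2 + 1) by ring, pow_mul, Real.sq_sqrt hp.le, one_mul,
        ← Real.rpow_natCast]
      push_cast
      rfl
    rw [h, hc, ← pow_mul]
    unfold xr
    rw [div_pow, show 2 * (x.2 + 1) = 2 * x.2 + 2 by ring]
    field_simp
  rw [e1]
  congr 2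
  by_cases hT : T = 0
  · simp [hT]
  · field_simp

/-- the decomposition into primes, even powers and odd powers at least three -/
theorem decomp (h2 : χ ^ 2 = 1) (γ : ℝ) {T : ℝ} (hT : 0 < T) :
    (Summable fun p : Nat.Primes => ‖((xr χ p : ℝ) : ℂ) * ker γ (Real.log ((p : ℕ) : ℝ) / T)‖) ∧
    V χ γ (1 / 2) T = 1 / 2 * V (1 : DirichletCharacter ℂ N) γ 1 (T / 2) + S χ γ T +
      ∑' x, ((co χ x : ℝ) : ℂ) * ker γ (lo x / T) := by
  have hn := vterm_summable h2 γ (1 / 2) hT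
  set f := vterm χ γ (1 / 2) T with hf
  have hs : Summable f := hn.of_norm
  have i1 : Function.Injective fun x : Nat.Primes × ℕ => (x.1, 2 * x.2 + 1) := by
    rintro ⟨p, a⟩ ⟨q, b⟩ h
    simp only [Prod.mk.injEq] at h
    exact Prod.ext h.1 (by simp; omega)
  have i2 : Function.Injective fun x : Nat.Primes × ℕ => (x.1, 2 * x.2 + 2) := by
    rintro ⟨p, a⟩ ⟨q, b⟩ h
    simp only [Prod.mk.injEq] at h
    exact Prod.ext h.1 (by simp; omega)
  have i3 : Function.Injective fun p : Nat.Primes => (p, 0) := by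
    intro p q h
    simpa using h
  have s1 : Summable fun x : Nat.Primes × ℕ => f (x.1, 2 * x.2 + 1) := hs.comp_injective i1
  have s2 : Summable fun x : Nat.Primes × ℕ => f (x.1, 2 * x.2 + 2) := hs.comp_injective i2
  have s3 : Summable fun p : Nat.Primes => f (p, 0) := hs.comp_injective i3
  have f3 : ∀ p : Nat.Primes, f (p, 0) =
      ((xr χ p : ℝ) : ℂ) * ker γ (Real.log ((p : ℕ) : ℝ) / T) := by
    intro p
    rw [hf, vterm_half]
    simp
  have f1 : ∀ x : Nat.Primes × ℕ, f (x.1, 2 * x.2 + 1) =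
      1 / 2 * vterm (1 : DirichletCharacter ℂ N) γ 1 (T / 2) x := by
    intro x
    rw [hf, vterm_half, vterm_one h2]
    have h0 : (0 : ℝ) ≤ x.2 := x.2.cast_nonneg
    have e1 : ((2 * x.2 + 1 : ℕ) : ℝ) + 1 = 2 * x.2 + 2 := by push_cast; ring
    simp only [e1]
    have e2 : xr χ x.1 ^ (2 * x.2 + 1 + 1) / (2 * (x.2 : ℝ) + 2) =
        1 / 2 * (xr χ x.1 ^ (2 * x.2 + 2) / (x.2 + 1)) := by
      have h3 : (2 * (x.2 : ℝ) + 2) ≠ 0 := by positivity
      have h4 : ((x.2 : ℝ) + 1) ≠ 0 := by positivity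
      rw [show 2 * x.2 + 1 + 1 = 2 * x.2 + 2 by ring]
      field_simp
    rw [e2]
    push_cast
    ring
  have f2 : ∀ x : Nat.Primes × ℕ, f (x.1, 2 * x.2 + 2) = ((co χ x : ℝ) : ℂ) * ker γ (lo x / T) := by
    intro x
    rw [hf, vterm_half]
    unfold co lo
    have e1 : ((2 * x.2 + 2 : ℕ) : ℝ) + 1 = 2 * x.2 + 3 := by push_cast; ring
    simp only [e1]
  constructor
  · refine (hn.comp_injective i3).congr fun p => ?_
    show ‖f (p, 0)‖ = _
    rw [f3]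
  · unfold V S
    have e0 : ∀ p : Nat.Primes, ∑' n, f (p, n) =
        (∑' n, f (p, 2 * n + 1)) + (f (p, 0) + ∑' n, f (p, 2 * n + 2)) := by
      intro p
      have hp : Summable fun n => f (p, n) := hs.prod_factor p
      have hev : Summable fun n => f (p, 2 * n) := hp.comp_injective (mul_right_injective₀ two_ne_zero)
      have hod : Summable fun n => f (p, 2 * n + 1) :=
        hp.comp_injective ((add_left_injective 1).comp (mul_right_injective₀ two_ne_zero))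
      rw [← tsum_even_add_odd hev hod, hev.tsum_eq_zero_add, add_comm]
      rfl
    rw [← hf, hs.tsum_prod, tsum_congr e0]
    have t1 : Summable fun p => ∑' n, f (p, 2 * n + 1) := s1.prod
    have t2 : Summable fun p => ∑' n, f (p, 2 * n + 2) := s2.prod
    rw [t1.tsum_add (s3.add t2), s3.tsum_add t2]
    have u1 : ∑' p, ∑' n, f (p, 2 * n + 1) = ∑' x : Nat.Primes × ℕ, f (x.1, 2 * x.2 + 1) :=
      s1.tsum_prod.symm
    have u2 : ∑' p, ∑' n, f (p, 2 * n + 2) = ∑' x : Nat.Primes × ℕ, f (x.1, 2 * x.2 + 2) :=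
      s2.tsum_prod.symm
    rw [u1, u2, tsum_congr f1, tsum_congr f2, tsum_congr f3, tsum_mul_left]
    ring

variable [NeZero N]

theorem mero_one (s : ℂ) : MeromorphicAt (1 : DirichletCharacter ℂ N).LFunction s := by
  by_cases hs : s = 1
  · rw [hs]
    exact (cont_one (N := N)).mer 1 (by norm_num)
  · have ho : IsOpen {z : ℂ | z ≠ 1} := isOpen_ne
    have h1 : DifferentiableOn ℂ (1 : DirichletCharacter ℂ N).LFunction {z : ℂ | z ≠ 1} :=
      fun z hz => (DirichletCharacter.differentiableAt_LFunction _ z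
        (Or.inl hz)).differentiableWithinAt
    exact (h1.analyticAt (ho.mem_nhds hs)).meromorphicAt

/-- the law for the trivial character at the point `1` -/
theorem law_one {γ : ℝ} (hγ : Real.pi / 2 < γ) :
    (fun T : ℝ => V (1 : DirichletCharacter ℂ N) γ 1 T - ((Real.log T - Lam γ) +
      Real.log (res N))) =O[atTop] (fun T : ℝ => 1 / T) := by
  have hone : (1 : DirichletCharacter ℂ N) ^ 2 = 1 := one_pow 2
  obtain ⟨n, l, k1, k2, -, k4⟩ := (eg hone).off (F := (1 : DirichletCharacter ℂ N).LFunction)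
    mero_one (fun _ hs => prod_eq 1 hs) 1 0 hγ
  have hD := (eg hone).ds (F := (1 : DirichletCharacter ℂ N).LFunction)
    mero_one (fun _ hs => prod_eq 1 hs)
  have e0 : (((1 : ℝ) : ℂ) + ((0 : ℝ) : ℂ) * Complex.I) = 1 := by simp
  rw [e0] at k1 k2
  obtain ⟨ho, ht⟩ := order_one (N := N)
  rw [ho] at k1
  rw [ht] at k2
  have hn : n = -1 := by exact_mod_cast k1.symm
  have hl : ‖l‖ = res N := by
    rw [← k2, Complex.norm_real, Real.norm_of_nonneg (res_pos N).le]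
  have hr : rayN (1 : DirichletCharacter ℂ N).LFunction 1 0 = 0 := by
    unfold rayN
    refine finsum_mem_eq_zero_of_forall_eq_zero fun x hx => ?_
    have hx' : 1 < x := hx
    rw [hD.order_right (s := x + (0 : ℝ) * Complex.I) (by simpa using hx')]
    rfl
  refine k4.congr_left fun T => ?_
  have h11 : (∑' x, oterm qP (aP (1 : DirichletCharacter ℂ N)) 1 0 γ T x) =
      V (1 : DirichletCharacter ℂ N) γ 1 T :=
    tsum_congr fun x => oterm_eq_vterm hone γ 1 T x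
  rw [hn, hl, hr, h11]
  push_cast
  ring

/-- **The law with primes only.** -/
theorem law_primes (h1 : χ ≠ 1) (h2 : χ ^ 2 = 1) {γ : ℝ} (hγ : Real.pi / 2 < γ) :
    (fun T : ℝ => S χ γ T - (-(mu χ (1 / 2) + 1 / 2) * (Real.log T - Lam γ) +
      (Real.log (lead χ (1 / 2)) + (Real.log 2 - Real.log (res N)) / 2 - cst χ : ℝ) -
      Real.pi * zc χ (Ioi (1 / 2)) * Complex.I)) =O[atTop] (fun T : ℝ => 1 / T) := by
  have k1 := (law h1 h2 hγ (1 / 2)).2
  have k2 := law_one (N := N) hγ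
  have k3 : (fun T : ℝ => V (1 : DirichletCharacter ℂ N) γ 1 (T / 2) - ((Real.log (T / 2) - Lam γ) +
      Real.log (res N))) =O[atTop] (fun T : ℝ => 1 / T) := by
    have h3 : Tendsto (fun T : ℝ => T / 2) atTop atTop := tendsto_id.atTop_div_const (by norm_num)
    refine (k2.comp_tendsto h3).trans ?_
    refine Asymptotics.IsBigO.of_bound 2 ?_
    filter_upwards [eventually_gt_atTop 0] with T hT
    simp only [Function.comp_apply]
    rw [Real.norm_eq_abs, Real.norm_eq_abs, abs_of_pos (by positivity), abs_of_pos (by positivity)]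
    apply le_of_eq
    field_simp
  obtain ⟨C, hC0, hC⟩ := err lo_nonneg (co_summable h2) (co_summable_log h2) γ
  have k4 : (fun T : ℝ => ∑' x, ((co χ x : ℝ) : ℂ) * ker γ (lo x / T) - ((cst χ : ℝ) : ℂ)) =O[atTop]
      (fun T : ℝ => 1 / T) := by
    refine Asymptotics.IsBigO.of_bound C ?_
    filter_upwards [eventually_gt_atTop 0] with T hT
    have := (hC T hT).2
    rw [co_tsum h2] at this
    rw [norm_div, norm_one, Real.norm_eq_abs, abs_of_pos hT, mul_one_div]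
    exact this
  have k5 := (k1.sub (k3.const_mul_left (1 / 2))).sub k4
  refine k5.congr' ?_ EventuallyEq.rfl
  filter_upwards [eventually_gt_atTop 0] with T hT
  have k6 := (decomp h2 γ hT).2
  have k7 : Real.log (T / 2) = Real.log T - Real.log 2 := Real.log_div hT.ne' two_ne_zero
  rw [k6, k7]
  push_cast
  ring

end Pool.Agent.U544.RC
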