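import Pool.Agent.U544.RC.Law

/-!
# The symmetry of the real zeros, with multiplicity
-/

set_option autoImplicit false

namespace Pool.Agent.U544.RC

open Filter Topology Set Complex
open Pool.Agent.N41.RM

variable {N : ℕ} [NeZero N] {χ : DirichletCharacter ℂ N}

/-- `L(w,χ) = U(w) L(1 - w,χ)` with a factor which is continuous and not zero in the strip -/
theorem exists_factor (h1 : χ ≠ 1) (h2 : χ ^ 2 = 1) : ∃ U : ℂ → ℂ, ∀ w : ℂ, 0 < w.re → w.re < 1 →
    ContinuousAt U w ∧ U w ≠ 0 ∧ χ.LFunction w = U w * χ.LFunction (1 - w) := by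
  set M := χ.conductor with hM
  have : NeZero M := ⟨χ.conductor_ne_zero⟩
  set ψ : DirichletCharacter ℂ M := χ.primitiveCharacter with hψ
  have hdvd : M ∣ N := χ.conductor_dvd_level
  have hlift : DirichletCharacter.changeLevel hdvd ψ = χ := χ.changeLevel_primitiveCharacter
  have hψ1 : ψ ≠ 1 := by
    intro h
    apply h1
    rw [← hlift, h, map_one]
  have hψ2 : ψ ^ 2 = 1 := by
    apply DirichletCharacter.changeLevel_injective (R := ℂ) hdvd
    rw [map_pow, hlift, map_one, h2]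
  have hψp : ψ.IsPrimitive := χ.primitiveCharacter_isPrimitive
  have hinv : ψ⁻¹ = ψ := by
    rw [inv_eq_iff_mul_eq_one, ← sq, hψ2]
  have hMne : M ≠ 1 := by
    intro h
    exact hψ1 (DirichletCharacter.level_one' _ h)
  -- the Euler factors
  set E : ℂ → ℂ := fun w => ∏ p ∈ N.primeFactors, (1 - ψ p * (p : ℂ) ^ (-w)) with hE
  have hfac : ∀ w : ℂ, 0 < w.re → E w ≠ 0 := by
    intro w ht
    refine Finset.prod_ne_zero_iff.2 fun p hp => ?_
    have hpp := Nat.prime_of_mem_primeFactors hp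
    have h3 : ‖ψ p * (p : ℂ) ^ (-w)‖ < 1 := by
      rw [norm_mul, Complex.norm_natCast_cpow_of_pos hpp.pos, Complex.neg_re]
      have h5 : (p : ℝ) ^ (-w.re) < 1 := Real.rpow_lt_one_of_one_lt_of_neg
        (by exact_mod_cast hpp.one_lt) (by linarith)
      have h6 := ψ.norm_le_one (p : ZMod M)
      have h7 : (0 : ℝ) ≤ (p : ℝ) ^ (-w.re) := Real.rpow_nonneg (Nat.cast_nonneg _) _
      calc ‖ψ p‖ * (p : ℝ) ^ (-w.re) ≤ 1 * (p : ℝ) ^ (-w.re) := mul_le_mul_of_nonneg_right h6 h7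
        _ < 1 := by linarith
    intro h4
    have h5 : ψ p * (p : ℂ) ^ (-w) = 1 := (sub_eq_zero.1 h4).symm
    rw [h5, norm_one] at h3
    exact lt_irrefl _ h3
  have hEc : Continuous E := by
    refine continuous_finsetProd _ fun p hp => ?_
    have hpp := Nat.prime_of_mem_primeFactors hp
    have hp0 : (p : ℂ) ≠ 0 := by exact_mod_cast hpp.ne_zero
    exact continuous_const.sub (continuous_const.mul (continuous_neg.const_cpow (Or.inl hp0)))
  have hL : ∀ w : ℂ, χ.LFunction w = ψ.LFunction w * E w := by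
    intro w
    rw [← hlift, DirichletCharacter.LFunction_changeLevel hdvd ψ (Or.inl hψ1)]
  -- the Gamma factor
  obtain ⟨G, hGc, hG0, hG⟩ : ∃ G : ℂ → ℂ, Continuous G ∧ (∀ w : ℂ, 0 < w.re → G w ≠ 0) ∧
      ∀ w, (ψ.gammaFactor w)⁻¹ = G w := by
    rcases ψ.even_or_odd with h | h
    · refine ⟨fun w => (Gammaℝ w)⁻¹, differentiable_Gammaℝ_inv.continuous, fun w hw => ?_, fun w => ?_⟩
      · exact inv_ne_zero (Complex.Gammaℝ_ne_zero_of_re_pos hw)
      · rw [h.gammaFactor_def]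
    · refine ⟨fun w => (Gammaℝ (w + 1))⁻¹, differentiable_Gammaℝ_inv.continuous.comp
        (continuous_id.add continuous_const), fun w hw => ?_, fun w => ?_⟩
      · refine inv_ne_zero (Complex.Gammaℝ_ne_zero_of_re_pos ?_)
        rw [add_re, one_re]
        linarith
      · rw [h.gammaFactor_def]
  have hLG : ∀ w : ℂ, χ.LFunction w = DirichletCharacter.completedLFunction ψ w * (G w * E w) := by
    intro w
    rw [hL, DirichletCharacter.LFunction_eq_completed_div_gammaFactor ψ _ (Or.inr hMne),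
      div_eq_mul_inv, hG]
    ring
  have hfe : ∀ w : ℂ, DirichletCharacter.completedLFunction ψ w =
      (M : ℂ) ^ (1 / 2 - w) * DirichletCharacter.rootNumber ψ *
        DirichletCharacter.completedLFunction ψ (1 - w) := by
    intro w
    have h := DirichletCharacter.IsPrimitive.completedLFunction_one_sub hψp (1 - w)
    rw [hinv, sub_sub_cancel] at h
    rw [h, show (1 : ℂ) - w - 1 / 2 = 1 / 2 - w by ring]
  have hroot : DirichletCharacter.rootNumber ψ ≠ 0 := by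
    intro h
    have h3 : χ.LFunction 2 = 0 := by rw [hLG, hfe, h, mul_zero, zero_mul, zero_mul]
    exact DirichletCharacter.LFunction_ne_zero_of_one_le_re χ (Or.inl h1) (by norm_num) h3
  have hM0 : (M : ℂ) ≠ 0 := by exact_mod_cast NeZero.ne M
  set A : ℂ → ℂ := fun w => G w * E w with hA
  have hAc : Continuous A := hGc.mul hEc
  have hA0 : ∀ w : ℂ, 0 < w.re → A w ≠ 0 := fun w hw => mul_ne_zero (hG0 w hw) (hfac w hw)
  refine ⟨fun w => (M : ℂ) ^ (1 / 2 - w) * DirichletCharacter.rootNumber ψ * (A w / A (1 - w)),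
    fun w hw0 hw1 => ?_⟩
  have hw2 : 0 < (1 - w).re := by rw [sub_re, one_re]; linarith
  refine ⟨?_, ?_, ?_⟩
  · have c1 : Continuous fun w : ℂ => (M : ℂ) ^ (1 / 2 - w) :=
      (continuous_const.sub continuous_id).const_cpow (Or.inl hM0)
    refine (c1.continuousAt.mul continuousAt_const).mul
      (hAc.continuousAt.div (hAc.comp (continuous_const.sub continuous_id)).continuousAt ?_)
    exact hA0 _ hw2
  · refine mul_ne_zero (mul_ne_zero ?_ hroot) (div_ne_zero (hA0 _ hw0) (hA0 _ hw2))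
    rw [Complex.cpow_def_of_ne_zero hM0]
    exact Complex.exp_ne_zero _
  · have k1 := hLG w
    have k2 := hLG (1 - w)
    have k3 := hfe w
    rw [k1, k2, k3]
    show _ * A w = _
    have h5 : G (1 - w) * E (1 - w) = A (1 - w) := rfl
    rw [h5]
    have := hA0 _ hw2
    field_simp

theorem mero_symm (h1 : χ ≠ 1) (h2 : χ ^ 2 = 1) {s : ℝ} (hs0 : 0 < s) (hs1 : s < 1) :
    meromorphicOrderAt χ.LFunction ((1 - s : ℝ) : ℂ) = meromorphicOrderAt χ.LFunction (s : ℂ) := by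
  obtain ⟨U, hU⟩ := exists_factor h1 h2
  have hD := dsχ h1 h2
  obtain ⟨n, hn⟩ := WithTop.ne_top_iff_exists.1 (hD.ne_top (s : ℂ))
  have hn := hn.symm
  have hl0 := (hD.mero (s : ℂ)).meromorphicTrailingCoeffAt_ne_zero (hD.ne_top (s : ℂ))
  set l := meromorphicTrailingCoeffAt χ.LFunction (s : ℂ) with hl
  have k1 := lim_of_order (hD.mero (s : ℂ)) hn hl.symm
  have h2' : Tendsto (fun w : ℂ => 1 - w) (𝓝[≠] ((1 - s : ℝ) : ℂ)) (𝓝[≠] (s : ℂ)) := by
    rw [tendsto_nhdsWithin_iff]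
    constructor
    · have h3 : Tendsto (fun w : ℂ => 1 - w) (𝓝 ((1 - s : ℝ) : ℂ)) (𝓝 (1 - ((1 - s : ℝ) : ℂ))) :=
        (continuous_const.sub continuous_id).tendsto _
      rw [show (1 : ℂ) - ((1 - s : ℝ) : ℂ) = s by push_cast; ring] at h3
      exact h3.mono_left nhdsWithin_le_nhds
    · filter_upwards [self_mem_nhdsWithin] with w hw
      intro h3
      apply hw
      rw [mem_singleton_iff] at h3 ⊢
      push_cast
      rw [← h3]
      ring
  have k2 := k1.comp h2'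
  obtain ⟨c1, c2, -⟩ := hU ((1 - s : ℝ) : ℂ) (by rw [ofReal_re]; linarith) (by rw [ofReal_re]; linarith)
  have k3 : Tendsto (fun w : ℂ => U w * (-1) ^ n) (𝓝[≠] ((1 - s : ℝ) : ℂ))
      (𝓝 (U ((1 - s : ℝ) : ℂ) * (-1) ^ n)) :=
    (c1.tendsto.mono_left nhdsWithin_le_nhds).mul_const _
  have k4 := k3.mul k2
  rw [hn]
  refine (order_of_lim (hD.mero _) (B := U ((1 - s : ℝ) : ℂ) * (-1) ^ n * l) ?_ ?_).1
  · exact mul_ne_zero (mul_ne_zero c2 (zpow_ne_zero _ (by norm_num))) hl0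
  · refine k4.congr' ?_
    have ho : IsOpen {w : ℂ | 0 < w.re ∧ w.re < 1} :=
      (isOpen_lt continuous_const Complex.continuous_re).inter
        (isOpen_lt Complex.continuous_re continuous_const)
    have hmem : {w : ℂ | 0 < w.re ∧ w.re < 1} ∈ 𝓝 ((1 - s : ℝ) : ℂ) := ho.mem_nhds (by
      show 0 < (((1 - s : ℝ) : ℂ)).re ∧ (((1 - s : ℝ) : ℂ)).re < 1
      rw [ofReal_re]
      constructor <;> linarith)
    filter_upwards [mem_nhdsWithin_of_mem_nhds hmem, self_mem_nhdsWithin] with w hw hw2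
    obtain ⟨-, -, k5⟩ := hU w hw.1 hw.2
    simp only [Function.comp_apply]
    rw [k5]
    have e1 : (1 : ℂ) - w - s = (-1) * (w - ((1 - s : ℝ) : ℂ)) := by push_cast; ring
    rw [e1, mul_zpow]
    have e2 : ((-1 : ℂ)) ^ n * (-1) ^ (-n) = 1 := by
      rw [← zpow_add₀ (by norm_num : (-1 : ℂ) ≠ 0), add_neg_cancel, zpow_zero]
    calc U w * (-1) ^ n * ((-1) ^ (-n) * (w - ((1 - s : ℝ) : ℂ)) ^ (-n) * χ.LFunction (1 - w))
        = ((-1 : ℂ) ^ n * (-1) ^ (-n)) * ((w - ((1 - s : ℝ) : ℂ)) ^ (-n) *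
          (U w * χ.LFunction (1 - w))) := by ring
      _ = _ := by rw [e2, one_mul]

theorem nat_symm (h1 : χ ≠ 1) (h2 : χ ^ 2 = 1) {s : ℝ} (hs0 : 0 < s) (hs1 : s < 1) :
    analyticOrderNatAt χ.LFunction ((1 - s : ℝ) : ℂ) = analyticOrderNatAt χ.LFunction (s : ℂ) := by
  have h := mero_symm h1 h2 hs0 hs1
  have h3 := congrArg WithTop.untop₀ h
  rw [order_nat h1, order_nat h1] at h3
  exact_mod_cast h3

theorem fin_inter (h1 : χ ≠ 1) (h2 : χ ^ 2 = 1) {A : Set ℝ} {σ : ℝ} (hA : A ⊆ Ioi σ) :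
    (A ∩ Function.support fun x : ℝ => analyticOrderNatAt χ.LFunction (x : ℂ)).Finite :=
  (fin_zc h1 h2 σ).subset (inter_subset_inter_left _ hA)

/-- the multiplicity is the order -/
theorem mu_eq (h1 : χ ≠ 1) (h2 : χ ^ 2 = 1) (σ : ℝ) :
    mu χ σ = analyticOrderNatAt χ.LFunction (σ : ℂ) := by
  have hd := DirichletCharacter.differentiable_LFunction h1
  have hD := dsχ h1 h2
  obtain ⟨n, hn⟩ := WithTop.ne_top_iff_exists.1 (hD.ne_top (σ : ℂ))
  obtain ⟨k5, -, -⟩ := mul0_spec (hd.analyticAt (σ : ℂ)) hn.symm rfl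
  have h4 := order_nat h1 (σ : ℂ)
  rw [← hn] at h4
  have h5 : n = (analyticOrderNatAt χ.LFunction (σ : ℂ) : ℤ) := h4
  rw [k5] at h5
  exact_mod_cast h5

/-- the number of the zeros in `(0,1)` -/
theorem zc_all (h1 : χ ≠ 1) (h2 : χ ^ 2 = 1) :
    zc χ (Ioo 0 1) = mu χ (1 / 2) + 2 * zc χ (Ioo (1 / 2) 1) := by
  have f1 := fin_inter h1 h2 (A := Ioo (0 : ℝ) (1 / 2)) (σ := 0) Ioo_subset_Ioi_self
  have f2 := fin_inter h1 h2 (A := Ioo (1 / 2 : ℝ) 1) (σ := 1 / 2) Ioo_subset_Ioi_self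
  have f3 := fin_inter h1 h2 (A := {(1 / 2 : ℝ)}) (σ := 0) (by
    intro x hx
    rw [mem_singleton_iff] at hx
    rw [hx, mem_Ioi]
    norm_num)
  have e1 : Ioo (0 : ℝ) 1 = (Ioo (0 : ℝ) (1 / 2) ∪ Ioo (1 / 2 : ℝ) 1) ∪ {(1 / 2 : ℝ)} := by
    ext x
    simp only [mem_Ioo, mem_union, mem_singleton_iff]
    constructor
    · rintro ⟨a, b⟩
      rcases lt_trichotomy x (1 / 2) with h | h | h
      · exact Or.inl (Or.inl ⟨a, h⟩)
      · exact Or.inr h
      · exact Or.inl (Or.inr ⟨h, b⟩)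
    · rintro ((⟨a, b⟩ | ⟨a, b⟩) | h)
      · exact ⟨a, by linarith⟩
      · exact ⟨by linarith, b⟩
      · rw [h]; norm_num
  have d1 : Disjoint (Ioo (0 : ℝ) (1 / 2)) (Ioo (1 / 2 : ℝ) 1) := by
    rw [Set.disjoint_left]
    rintro x ⟨-, a⟩ ⟨b, -⟩
    linarith
  have d2 : Disjoint (Ioo (0 : ℝ) (1 / 2) ∪ Ioo (1 / 2 : ℝ) 1) {(1 / 2 : ℝ)} := by
    rw [Set.disjoint_singleton_right]
    rintro (⟨-, a⟩ | ⟨a, -⟩)
    · exact lt_irrefl _ a
    · exact lt_irrefl _ a
  have f12 : ((Ioo (0 : ℝ) (1 / 2) ∪ Ioo (1 / 2 : ℝ) 1) ∩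
      Function.support fun x : ℝ => analyticOrderNatAt χ.LFunction (x : ℂ)).Finite := by
    rw [union_inter_distrib_right]
    exact f1.union f2
  have e2 : zc χ (Ioo 0 (1 / 2)) = zc χ (Ioo (1 / 2) 1) := by
    have h8 : Ioo (1 / 2 : ℝ) 1 = (fun x : ℝ => 1 - x) '' Ioo (0 : ℝ) (1 / 2) := by
      rw [Set.image_const_sub_Ioo]
      norm_num
    unfold zc
    rw [h8, finsum_mem_image (sub_right_injective.injOn)]
    refine finsum_mem_congr rfl fun x hx => ?_
    exact (nat_symm h1 h2 hx.1 (by linarith [hx.2])).symm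
  have e3 : zc χ {(1 / 2 : ℝ)} = mu χ (1 / 2) := by
    unfold zc
    rw [finsum_mem_singleton, mu_eq h1 h2]
  have e4 : zc χ (Ioo 0 1) = zc χ (Ioo 0 (1 / 2)) + zc χ (Ioo (1 / 2) 1) + zc χ {(1 / 2 : ℝ)} := by
    unfold zc
    rw [e1, finsum_mem_union' d2 f12 f3, finsum_mem_union' d1 f1 f2]
  rw [e4, e2, e3]
  ring

end Pool.Agent.U544.RC
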